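import Pool.Agent.Helper16.CZ.Stmts

/-!
C1L: periodic continuously differentiable functions (MP_7a8f48_an).
-/

open Finset Filter MeasureTheory Topology
open scoped ComplexConjugate InnerProductSpace

namespace Pool.Agent.Helper16.CZ

open Pool.Agent.Helper16.AZ (T E Op mm ST_VDH ST_FPV ST_TLR)
open Pool.Agent.Helper16.BZ (EQ GR PD)
open Pool.Agent.Helper16.MD (MS PB Am RW Rich)
open UnitAddTorus (mFourier)

/-- the covering map -/
noncomputable def c1l_pi {r : ℕ} (t : Fin r → ℝ) : T r := fun i => (t i : UnitAddCircle)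

theorem c1l_per {r : ℕ} {β : Type} (g : (Fin r → ℝ) → β)
    (hg : ∀ t j, g (t + Pi.single j 1) = g t) (t s : Fin r → ℝ) (h : c1l_pi t = c1l_pi s) :
    g t = g s := by
  let P : AddSubgroup (Fin r → ℝ) :=
    { carrier := {v | ∀ t, g (t + v) = g t}
      zero_mem' := by intro t; rw [add_zero]
      add_mem' := by
        intro a b ha hb t
        rw [← add_assoc, hb, ha]
      neg_mem' := by
        intro a ha t
        have h1 := ha (t + -a)
        rw [neg_add_cancel_right] at h1
        exact h1.symm }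
  have h1 : ∀ j, (Pi.single j (1 : ℝ) : Fin r → ℝ) ∈ P := fun j t => hg t j
  have h2 : ∀ i, ∃ k : ℤ, k • (1 : ℝ) = -t i + s i := by
    intro i
    have h3 : (t i : UnitAddCircle) = (s i : UnitAddCircle) := congrFun h i
    have h4 := QuotientAddGroup.eq.1 h3
    exact AddSubgroup.mem_zmultiples_iff.1 h4
  choose k hk using h2
  have h4 : (∑ j, k j • (Pi.single j (1 : ℝ) : Fin r → ℝ)) ∈ P :=
    P.sum_mem fun j _ => P.zsmul_mem (h1 j) _
  have h3 : s = t + ∑ j, k j • (Pi.single j (1 : ℝ) : Fin r → ℝ) := by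
    funext i
    rw [Pi.add_apply, Finset.sum_apply]
    have h5 : ∑ j, (k j • (Pi.single j (1 : ℝ) : Fin r → ℝ)) i = k i • (1 : ℝ) := by
      rw [Finset.sum_eq_single i]
      · rw [Pi.smul_apply, Pi.single_eq_same]
      · intro j _ hj
        rw [Pi.smul_apply, Pi.single_eq_of_ne hj.symm, smul_zero]
      · intro h6
        exact absurd (Finset.mem_univ i) h6
    rw [h5, hk]
    ring
  rw [h3]
  exact (h4 t).symm

theorem c1l_surj {r : ℕ} (x : T r) : ∃ t : Fin r → ℝ, c1l_pi t = x := by
  have h : ∀ i, ∃ t : ℝ, (t : UnitAddCircle) = x i := fun i =>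
    QuotientAddGroup.mk_surjective (x i)
  choose t ht using h
  exact ⟨t, funext ht⟩

theorem c1l_quot {r : ℕ} : IsOpenQuotientMap (c1l_pi : (Fin r → ℝ) → T r) := by
  have h : IsOpenQuotientMap (Pi.map fun (_ : Fin r) (t : ℝ) => (t : UnitAddCircle)) :=
    IsOpenQuotientMap.piMap fun _ => QuotientAddGroup.isOpenQuotientMap_mk
  exact h

theorem c1l_desc {r : ℕ} {β : Type} [TopologicalSpace β] (g : (Fin r → ℝ) → β)
    (hg : ∀ t j, g (t + Pi.single j 1) = g t) (hc : Continuous g) :
    ∃ G : T r → β, Continuous G ∧ ∀ t, G (c1l_pi t) = g t := by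
  choose l hl using fun x : T r => c1l_surj x
  have h1 : ∀ t, g (l (c1l_pi t)) = g t := fun t => c1l_per g hg _ _ (hl _)
  refine ⟨fun x => g (l x), ?_, h1⟩
  rw [c1l_quot.isQuotientMap.continuous_iff]
  have h2 : (fun x => g (l x)) ∘ c1l_pi = g := funext h1
  rw [h2]
  exact hc

theorem c1l_near (a : UnitAddCircle) : ∃ v : ℝ, (v : UnitAddCircle) = a ∧ |v| = ‖a‖ := by
  obtain ⟨x, rfl⟩ := QuotientAddGroup.mk_surjective a
  refine ⟨x - round x, ?_, (UnitAddCircle.norm_eq (x := x)).symm⟩
  refine QuotientAddGroup.eq.2 ?_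
  rw [AddSubgroup.mem_zmultiples_iff]
  refine ⟨round x, ?_⟩
  rw [zsmul_eq_mul]
  ring

theorem c1l_norm (t : ℝ) : ‖(t : UnitAddCircle)‖ ≤ |t| := by
  rw [UnitAddCircle.norm_eq]
  have h := round_le t 0
  rwa [Int.cast_zero, sub_zero] at h

theorem st_C1L : ST_C1L := by
  intro r f hf hper
  have hdiff : Differentiable ℝ f := hf.differentiable (by norm_num)
  have hcf : Continuous (fderiv ℝ f) := hf.continuous_fderiv (by norm_num)
  have hper' : ∀ t j, fderiv ℝ f (t + Pi.single j 1) = fderiv ℝ f t := by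
    intro t j
    have h1 : (fun s => f (s + Pi.single j 1)) = f := funext fun s => hper s j
    have h2 := fderiv_comp_add_right (𝕜 := ℝ) (f := f) (x := t) (Pi.single j 1)
    rw [h1] at h2
    exact h2.symm
  obtain ⟨F, hFc, hF⟩ := c1l_desc f hper hf.continuous
  obtain ⟨DF, hDc, hD⟩ := c1l_desc (fderiv ℝ f) hper' hcf
  -- the bound for the derivative
  obtain ⟨B, hB⟩ := (isCompact_range hDc.norm).bddAbove
  have hB' : ∀ t, ‖fderiv ℝ f t‖ ≤ max B 0 := by
    intro t
    rw [← hD t]
    exact (hB ⟨_, rfl⟩).trans (le_max_left _ _)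
  refine ⟨F, hF, ⟨max B 0, le_max_right _ _, ?_⟩, ?_⟩
  · intro x y
    obtain ⟨t, ht⟩ := c1l_surj x
    choose v hv1 hv2 using fun i => c1l_near (y i - x i)
    have h1 : c1l_pi (t + v) = y := by
      funext i
      have h2 : (t i : UnitAddCircle) = x i := congrFun ht i
      show ((t i + v i : ℝ) : UnitAddCircle) = y i
      rw [QuotientAddGroup.mk_add, h2, hv1]
      abel
    rw [← h1, ← ht, hF, hF]
    have h3 : ‖f t - f (t + v)‖ ≤ max B 0 * ‖t - (t + v)‖ :=
      convex_univ.norm_image_sub_le_of_norm_fderiv_le (fun s _ => hdiff s) (fun s _ => hB' s)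
        (Set.mem_univ _) (Set.mem_univ _)
    rw [Real.norm_eq_abs] at h3
    refine h3.trans (mul_le_mul_of_nonneg_left ?_ (le_max_right _ _))
    rw [ht, h1, sub_add_cancel_left, norm_neg, pi_norm_le_iff_of_nonneg dist_nonneg]
    intro i
    rw [Real.norm_eq_abs, hv2, ← dist_eq_norm, dist_comm]
    exact dist_le_pi_dist x y i
  · intro j
    obtain ⟨e, he⟩ : ∃ e : Fin r → ℝ, e = Pi.single j 1 := ⟨_, rfl⟩
    refine ⟨fun x => DF x e, hDc.clm_apply continuous_const, ?_⟩
    intro ε hε
    have hgc : Continuous fun x => DF x e := hDc.clm_apply continuous_const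
    have huc := CompactSpace.uniformContinuous_of_continuous hgc
    rw [Metric.uniformContinuous_iff] at huc
    obtain ⟨δ, hδ, hδ2⟩ := huc ε hε
    refine ⟨δ / 2, by positivity, ?_⟩
    intro x t ht
    obtain ⟨u, hu⟩ := c1l_surj x
    have hshift : ∀ τ : ℝ, c1l_pi (u + τ • e) = x + sg j τ := by
      intro τ
      funext i
      have h2 : (u i : UnitAddCircle) = x i := congrFun hu i
      show ((u i + (τ • e) i : ℝ) : UnitAddCircle) = x i + (sg j τ : T r) i
      rw [QuotientAddGroup.mk_add, h2, he]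
      unfold sg
      by_cases hij : i = j
      · subst hij
        rw [Pi.smul_apply, Pi.single_eq_same, Pi.single_eq_same, smul_eq_mul, mul_one]
      · rw [Pi.smul_apply, Pi.single_eq_of_ne hij, Pi.single_eq_of_ne hij, smul_zero]
        rfl
    have hdist : ∀ τ : ℝ, |τ| ≤ δ / 2 → dist (x + sg j τ) x < δ := by
      intro τ hτ
      have h1 : dist (x + sg j τ) x ≤ |τ| := by
        rw [dist_pi_le_iff (abs_nonneg _)]
        intro i
        rw [Pi.add_apply, dist_eq_norm, add_sub_cancel_left]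
        unfold sg
        by_cases hij : i = j
        · subst hij
          rw [Pi.single_eq_same]
          exact c1l_norm τ
        · rw [Pi.single_eq_of_ne hij, norm_zero]
          exact abs_nonneg _
      linarith
    have hder : ∀ τ : ℝ, HasDerivAt (fun τ : ℝ => f (u + τ • e)) (fderiv ℝ f (u + τ • e) e) τ := by
      intro τ
      have h1 : HasDerivAt (fun τ : ℝ => u + τ • e) e τ := by
        have h2 := ((hasDerivAt_id τ).smul_const e).const_add u
        simpa only [one_smul, id] using h2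
      exact (hdiff (u + τ • e)).hasFDerivAt.comp_hasDerivAt τ h1
    have hder2 : ∀ τ : ℝ, HasDerivAt (fun τ : ℝ => f (u + τ • e) - τ * fderiv ℝ f u e)
        (fderiv ℝ f (u + τ • e) e - fderiv ℝ f u e) τ := by
      intro τ
      have h1 := (hder τ).sub ((hasDerivAt_id τ).mul_const (fderiv ℝ f u e))
      rw [one_mul] at h1
      exact h1
    have hmv := (convex_Icc (-(δ / 2)) (δ / 2)).norm_image_sub_le_of_norm_hasDerivWithin_le
      (f := fun τ : ℝ => f (u + τ • e) - τ * fderiv ℝ f u e)
      (f' := fun τ => fderiv ℝ f (u + τ • e) e - fderiv ℝ f u e) (C := ε) (x := 0) (y := t)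
      (fun τ _ => (hder2 τ).hasDerivWithinAt) (fun τ hτ => by
        have h1 : |τ| ≤ δ / 2 := abs_le.2 hτ
        have h2 := hδ2 (hdist τ h1)
        rw [← hshift, ← hu, hD, hD] at h2
        rw [← dist_eq_norm]
        exact h2.le) ⟨by linarith, by linarith⟩ (abs_le.1 ht)
    rw [zero_smul, add_zero, zero_mul, sub_zero, sub_zero, Real.norm_eq_abs, Real.norm_eq_abs]
      at hmv
    have h5 : F (x + sg j t) = f (u + t • e) := by rw [← hshift, hF]
    have h6 : F x = f u := by rw [← hu, hF]
    have h7 : DF x e = fderiv ℝ f u e := by rw [← hu, hD]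
    show |F (x + sg j t) - F x - t * DF x e| ≤ ε * |t|
    rw [h5, h6, h7]
    have h8 : f (u + t • e) - f u - t * fderiv ℝ f u e =
        f (u + t • e) - t * fderiv ℝ f u e - f u := by ring
    rw [h8]
    exact hmv

end Pool.Agent.Helper16.CZ
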